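import Mathlib
import Pool.Agent.H81.Euler.Main

namespace Pool.Agent.Results.MP_9f20e8_nt.LeastSolution

/-- Lower bounds for every solution of `a_1^s + ... + a_n^s = b^s`, `n < s`, all `a_i < b`, for the
exponents `s = 2^v`, `s = 3 * 2^v` and `s = φ(p^k)`. -/
theorem result :
    (∀ v m : ℕ, (m = 1 ∨ m = 3) → 1 ≤ v → 3 ≤ m * 2 ^ v →
      ∀ n : ℕ, n < m * 2 ^ v → ∀ (a : Fin n → ℕ) (b : ℕ), 0 < b → (∀ i, a i < b) →
        ∑ i, a i ^ (m * 2 ^ v) = b ^ (m * 2 ^ v) →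
          m * 2 ^ (m * 2 ^ v - 1) < b * (m * 2 ^ v)) ∧
    (∀ p k : ℕ, p.Prime → p ≠ 2 → 1 ≤ k →
      ∀ n : ℕ, n < (p ^ k).totient → ∀ (a : Fin n → ℕ) (b : ℕ), 0 < b → (∀ i, a i < b) →
        ∑ i, a i ^ (p ^ k).totient = b ^ (p ^ k).totient →
          p ^ ((p ^ k).totient + 1 - k) < (2 * b) ^ (p - 1).totient) :=
  ⟨fun v m hm hv hs n hn a b hb hab h => Pool.Agent.H81.Euler.two_case v m hm hv hs n hn a b hb hab h,
   fun p k hp hp2 hk n hn a b hb hab h =>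
     Pool.Agent.H81.Euler.odd_case p k hp hp2 hk n hn a b hb hab h⟩

end Pool.Agent.Results.MP_9f20e8_nt.LeastSolution
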